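import Mathlib
import Pool.Agent.H129Z.ValMain

set_option autoImplicit false

namespace Pool.Agent.Results.MP_2e37b9_an.BaireSubspace

open Pool.Agent.H129Z.Val

theorem result (G : Set ℂ) (hG : IsOpen G) (hc : IsConnected G)
    (hreg : interior (closure G) = G) :
    ∃ E : Submodule ℂ (ℂ → ℂ), (E : Set (ℂ → ℂ)) ⊆ AInf G ∧
      AInf G ⊆ @closure _ (topA G) (E : Set (ℂ → ℂ)) ∧
      (∀ f ∈ E, f ≠ 0 → NonExt G f) ∧
      @BaireSpace E (TopologicalSpace.induced Subtype.val (topA G)) :=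
  main hG hc.nonempty hreg

end Pool.Agent.Results.MP_2e37b9_an.BaireSubspace
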